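import Mathlib
import Pool.Agent.R957.LpEn.Defs
import Pool.Agent.R957.LpEn.Main

/-! Q1 of MP_7677b2_pr, negated form: no absolute constant compares the consensus times. -/

namespace Pool.Agent.Results.MP_7677b2_pr.NoUniversalConstant

open Pool.Agent.R957.LpEn

/-- For every `C` there are a connected graph `G` on `n = m + 2` vertices, an initial profile
`f : V → [0,1]`, `ε > 0` and `1 < p₁ < p₂` with `E[τ_{p₂}(ε)] > C E[τ_{p₁}(ε)]`. For that graph
every local minimisation problem has exactly one minimiser. -/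
theorem result (C : ℝ) : ∃ (m : ℕ) (G : SimpleGraph (Fin (m + 2))), G.Connected ∧
    (∀ p : ℝ, 1 < p → ∀ (g : Fin (m + 2) → ℝ) (v : Fin (m + 2)),
      ∃! y : ℝ, ∀ z : ℝ, Psi G p g v y ≤ Psi G p g v z) ∧
    ∃ f : Fin (m + 2) → ℝ, (∀ v, 0 ≤ f v ∧ f v ≤ 1) ∧ ∃ eps : ℝ, 0 < eps ∧
      ∃ p1 p2 : ℝ, 1 < p1 ∧ p1 < p2 ∧
        ENNReal.ofReal C * ETau G p1 f eps < ETau G p2 f eps := by
  refine ⟨2, K4, SimpleGraph.connected_top, ?_, main C⟩
  intro p hp g v
  refine ⟨newVal K4 p g v, fun z => newVal_spec K4 hp g v (v + 1) (adj_succ v) z, ?_⟩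
  intro y hy
  exact newVal_unique K4 hp g v (v + 1) (adj_succ v) y hy

end Pool.Agent.Results.MP_7677b2_pr.NoUniversalConstant
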